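import Pool.Agent.Y705.HD.Init

open Filter Topology Set

namespace Pool.Agent.Y705.HD

open Pool.Agent.Helper95.Hada

theorem continuous_P (S : Ser) (K : ℕ) (s : ℝ) : Continuous (fun θ : ℝ => S.P K s θ) := by
  unfold Ser.P
  refine continuous_finsetSum _ fun k _ => ?_
  have e : (fun θ : ℝ => S.a k * Complex.exp (S.lam k * (⟨-s, θ⟩ : ℂ))) =
      fun θ : ℝ => S.a k * Complex.exp (S.lam k * (((-s : ℝ) : ℂ) + (θ : ℂ) * Complex.I)) := by
    funext θ
    have : (⟨-s, θ⟩ : ℂ) = ((-s : ℝ) : ℂ) + (θ : ℂ) * Complex.I := by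
      apply Complex.ext <;> simp
    rw [this]
  rw [e]
  fun_prop

theorem sum_image_le (F : Finset ℕ) (f : ℕ → ℝ × ℝ) (g : ℝ × ℝ → ℝ) (hg : ∀ x, 0 ≤ g x) :
    ∑ x ∈ F.image f, g x ≤ ∑ n ∈ F, g (f n) := by
  classical
  have h := sum_biUnion_le' F (fun n => {f n}) g hg
  have e : F.biUnion (fun n => ({f n} : Finset (ℝ × ℝ))) = F.image f := by
    ext x
    simp [eq_comm]
  rw [e] at h
  simpa using h

/-- the case of infinitely many gaps: in the window `[ctr - 2l, ctr + 2l]` there is a compact set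
of points with `|F| → ∞` that is not covered by finitely many intervals with a small sum of square
roots of lengths -/
theorem caseA (S : Ser) (R : Par S.q) (L : Lev S R.d) (Kb : ℝ) (hKb : 1 < Kb)
    (hcut : ∀ n : ℕ, Kb * L.η (n + 1) ≤ L.η n → Nonempty (Cut L R.Cs R.ε₁ R.κ n))
    (hB : ∀ n₀ : ℕ, ∃ n, n₀ ≤ n ∧ Kb * L.η (n + 1) < L.η n)
    (ctr l : ℝ) (hl0 : 0 < l) (hll : R.CV ≤ S.lam 0 * l) :
    ∃ (T : Set ℝ) (δ : ℝ), IsCompact T ∧ 0 < δ ∧
      (∀ θ ∈ T, |θ - ctr| ≤ 2 * l ∧ Tendsto (fun s => ‖S.F s θ‖) (𝓝[>] 0) atTop) ∧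
      ∀ (F : Finset ℕ) (b h : ℕ → ℝ), (∀ n, 0 < h n) → ∑ n ∈ F, Real.sqrt (h n) < δ →
        ∃ θ ∈ T, ∀ n ∈ F, h n < |θ - b n| := by
  classical
  have hc := R.c_pos
  have hd : 0 < R.d := by unfold Par.d; linarith
  have hκ : 0 < R.κ := by unfold Par.κ; linarith
  have hε : 0 < R.ε := by unfold Par.ε; positivity
  have hε₁ : 0 < R.ε₁ := by
    unfold Par.ε₁
    apply Real.log_pos
    nlinarith [mul_pos hκ hd]
  have hw : 0 < R.w := by unfold Par.w; positivity
  have hr₀ : 0 < R.r₀ := by unfold Par.r₀; positivity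
  have hw1 : R.w < 1 := by
    unfold Par.w
    have h1 : R.c / 24000 < 1 := by
      have := R.c_le
      linarith
    have h0 : 0 < R.c / 24000 := by positivity
    nlinarith
  have hr₀1 : R.r₀ ≤ 1 / 4 := by
    unfold Par.r₀
    have h1 : R.c / 24000 ≤ 1 / 4 := by
      have := R.c_le
      linarith
    have h0 : 0 < R.c / 24000 := by positivity
    calc (R.c / 24000) ^ 4 ≤ (1 / 4) ^ 4 := pow_le_pow_left₀ h0.le h1 4
      _ ≤ 1 / 4 := by norm_num
  obtain ⟨m, Lm, t₀, hm, ht₀, hav⟩ := avoid_global S.q R.d Kb S.one_lt_q hd hKb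
  -- the ratio r
  obtain ⟨r, hr0, hr1, hrm⟩ : ∃ r : ℝ, 0 < r ∧ r < 1 ∧ 1 < r ^ m * (1 + R.d) := by
    have hcont : Tendsto (fun r : ℝ => r ^ m * (1 + R.d)) (𝓝[<] 1) (𝓝 ((1 : ℝ) ^ m * (1 + R.d))) := by
      apply Tendsto.mono_left _ nhdsWithin_le_nhds
      exact (Continuous.tendsto (by fun_prop) 1)
    have h1 : (1 : ℝ) < (1 : ℝ) ^ m * (1 + R.d) := by simp [hd]
    have h2 := hcont.eventually (lt_mem_nhds h1)
    have h3 : ∀ᶠ r : ℝ in 𝓝[<] 1, r < 1 := self_mem_nhdsWithin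
    have h4 : ∀ᶠ r : ℝ in 𝓝[<] 1, 0 < r := nhdsWithin_le_nhds (lt_mem_nhds one_pos)
    obtain ⟨r, h⟩ := (h2.and (h3.and h4)).exists
    exact ⟨r, h.2.2, h.2.1, h.1⟩
  -- smallness of the tail of the sum of square roots
  have hsq : Summable (fun n : ℕ => Real.sqrt (r ^ n)) := by
    have : (fun n : ℕ => Real.sqrt (r ^ n)) = fun n => (Real.sqrt r) ^ n := by
      funext n
      rw [Real.sqrt_eq_iff_mul_self_eq (by positivity) (by positivity), ← mul_pow, Real.mul_self_sqrt hr0.le]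
    rw [this]
    apply summable_geometric_of_lt_one (Real.sqrt_nonneg _)
    rw [Real.sqrt_lt' one_pos]
    simpa using hr1
  have hcw : 0 < R.c * R.w := mul_pos hc hw
  obtain ⟨n₁, hn₁⟩ : ∃ n₁ : ℕ, ∀ N : Finset ℕ, (∀ n ∈ N, n₁ ≤ n) →
      24000 * (Lm : ℝ) * ∑ n ∈ N, Real.sqrt (r ^ n) ≤ R.c * R.w := by
    have hpos : 0 < R.c * R.w / (24000 * (Lm : ℝ) + 1) := by positivity
    obtain ⟨s, hs⟩ := (summable_iff_vanishing_norm.1 hsq) _ hpos
    obtain ⟨b, hb⟩ := s.exists_nat_subset_range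
    refine ⟨b, fun N hN => ?_⟩
    have hdisj : Disjoint N s := by
      rw [Finset.disjoint_left]
      intro a ha has
      have h1 := Finset.mem_range.1 (hb has)
      have h2 := hN a ha
      omega
    have h3 := hs N hdisj
    rw [Real.norm_eq_abs] at h3
    have h4 := (abs_lt.1 h3).2
    rw [lt_div_iff₀ (by positivity)] at h4
    have h5 : 0 ≤ ∑ n ∈ N, Real.sqrt (r ^ n) := Finset.sum_nonneg (fun _ _ => Real.sqrt_nonneg _)
    nlinarith
  obtain ⟨n₂, hn₂⟩ : ∃ n₂ : ℕ, ∀ n, n₂ ≤ n → r ^ n ≤ 1 / 2 := by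
    have := tendsto_pow_atTop_nhds_zero_of_lt_one hr0.le hr1
    have h2 := this.eventually (gt_mem_nhds (show (0 : ℝ) < 1 / 2 by norm_num))
    obtain ⟨n₂, h⟩ := eventually_atTop.1 h2
    exact ⟨n₂, fun n hn => (h n hn).le⟩
  obtain ⟨n₃, hn₃⟩ : ∃ n₃ : ℕ, ∀ n, n₃ ≤ n → L.s n < R.r₀ * l := by
    have h2 := L.tendsto_s.eventually (gt_mem_nhds (show (0 : ℝ) < R.r₀ * l by positivity))
    exact eventually_atTop.1 h2
  have hε1 : R.ε ≤ 1 := by
    have h1 : R.ε = R.c ^ 2 / 16 := rfl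
    have h2 := R.c_le
    rw [h1]
    nlinarith
  -- gaps
  obtain ⟨g₀, hg₀a, hg₀'⟩ := hB (max (max n₁ n₂) n₃)
  have hg₀ : max n₁ n₂ ≤ g₀ := (le_max_left _ _).trans hg₀a
  have hg₀3 : n₃ ≤ g₀ := (le_max_right _ _).trans hg₀a
  have hnext : ∀ g, ∃ g', g < g' ∧ Kb * L.η (g' + 1) ≤ L.η g' ∧
      ∀ n, g < n → n < g' → L.η n ≤ Kb * L.η (n + 1) := by
    intro g
    have hex : ∃ g', g < g' ∧ Kb * L.η (g' + 1) < L.η g' := by
      obtain ⟨g', h1, h2⟩ := hB (g + 1)
      exact ⟨g', by omega, h2⟩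
    refine ⟨Nat.find hex, (Nat.find_spec hex).1, (Nat.find_spec hex).2.le, fun n h1 h2 => ?_⟩
    have := Nat.find_min hex h2
    push Not at this
    exact this h1
  choose next hn1 hn2 hn3 using hnext
  let G : ℕ → ℕ := fun i => Nat.rec g₀ (fun _ g => next g) i
  have hG0 : G 0 = g₀ := rfl
  have hGs : ∀ i, G (i + 1) = next (G i) := fun i => rfl
  have hGlt : ∀ i, G i < G (i + 1) := fun i => hn1 (G i)
  have hGmono : StrictMono G := strictMono_nat_of_lt_succ hGlt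
  have hGgap : ∀ i, Kb * L.η (G i + 1) ≤ L.η (G i) := by
    intro i
    cases i with
    | zero => exact hg₀'.le
    | succ i => exact hn2 (G i)
  have hGbet : ∀ i n, G i < n → n < G (i + 1) → L.η n ≤ Kb * L.η (n + 1) := fun i n => hn3 (G i) n
  let C : ∀ i, Cut L R.Cs R.ε₁ R.κ (G i) := fun i => Classical.choice (hcut (G i) (hGgap i))
  let ℓ : ℕ → ℝ := fun i => R.ε / (C i).Λ
  have hℓpos : ∀ i, 0 < ℓ i := fun i => div_pos hε (C i).hΛ
  have hℓ0 : ℓ 0 ≤ R.r₀ * l := by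
    have h1 := (C 0).lower
    have h2 : L.η (G 0) ≤ L.s g₀ := by
      have := L.s_pos (G 0 + 1)
      simp only [Lev.η, hG0]
      simp only [hG0] at this
      linarith
    have h3 := hn₃ g₀ hg₀3
    have h4 : R.ε / (C 0).Λ ≤ R.ε * L.s g₀ := by
      rw [div_le_iff₀ (C 0).hΛ]
      have h5 : 1 ≤ (C 0).Λ * L.s g₀ :=
        h1.trans (mul_le_mul_of_nonneg_left h2 (C 0).hΛ.le)
      calc R.ε = R.ε * 1 := (mul_one _).symm
        _ ≤ R.ε * ((C 0).Λ * L.s g₀) := mul_le_mul_of_nonneg_left h5 hε.le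
        _ = R.ε * L.s g₀ * (C 0).Λ := by ring
    have h6 : R.ε * L.s g₀ ≤ 1 * L.s g₀ := mul_le_mul_of_nonneg_right hε1 (L.s_pos _).le
    calc ℓ 0 ≤ R.ε * L.s g₀ := h4
      _ ≤ 1 * L.s g₀ := h6
      _ ≤ R.r₀ * l := by linarith
  obtain ⟨θ₀, hθ₀c, hθ₀⟩ := init_loc R rfl L (C 0) ctr l hl0 hll hℓ0
  let Θ : ℝ := |ctr| + 2 * l
  have hΘ : 0 < Θ := by
    have := abs_nonneg ctr
    simp only [Θ]
    linarith
  have hBex : ∀ n : ℕ, ∃ B : Finset ℝ, (L.η n ≤ Kb * L.η (n + 1) → L.η (n + 1) ≤ Kb * L.η (n + 2) →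
      (∀ y : ℝ, (B.filter (fun b => |b - y| ≤ (L.η (n + 2) / 9) / 2)).card ≤ Lm) ∧
        ∀ θ ∈ Icc (-Θ) Θ, (∀ b ∈ B, r ^ n / 2 * (L.η (n + 2) / 9) < |θ - b|) →
          ∀ s ∈ Icc (L.s (n + 2)) (L.s (n + 1)), t₀ * (r ^ n / 2) ^ m * (1 + R.d) ^ (n + 1) ≤ ‖S.F s θ‖) := by
    intro n
    by_cases h1 : L.η n ≤ Kb * L.η (n + 1)
    · by_cases h2 : L.η (n + 1) ≤ Kb * L.η (n + 2)
      · obtain ⟨B, hb1, -, hb3⟩ := hav S rfl L n h1 h2 (r ^ n / 2) Θ (by positivity)
          (by have := pow_le_one₀ (n := n) hr0.le hr1.le; linarith) hΘ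
        exact ⟨B, fun _ _ => ⟨hb1, hb3⟩⟩
      · exact ⟨∅, fun _ h => absurd h h2⟩
    · exact ⟨∅, fun h _ => absurd h h1⟩
  choose B hBB using hBex
  let N : ℕ → Finset ℕ := fun i => (Finset.Ioo (G i) (G (i + 1))).filter (fun n => n + 1 < G (i + 1))
  have hNmem : ∀ i n, n ∈ N i ↔ G i < n ∧ n + 1 < G (i + 1) := by
    intro i n
    simp only [N, Finset.mem_filter, Finset.mem_Ioo]
    constructor
    · rintro ⟨⟨h1, h2⟩, h3⟩; exact ⟨h1, h3⟩
    · rintro ⟨h1, h3⟩; exact ⟨⟨h1, by omega⟩, h3⟩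
  let Fam : ℕ → Finset (ℝ × ℝ) := fun i =>
    (N i).biUnion (fun n => (B n).image (fun b => (b, r ^ n * (L.η (n + 2) / 9))))
  -- the compact set
  let T : Set ℝ := {θ | |θ - ctr| ≤ 2 * l ∧
    (∀ i, (R.c * (73 / 100)) * (1 + R.d) ^ (G i + 1) ≤ ‖S.P (C i).K (L.s (G i + 1)) θ‖) ∧
    (∀ i, ∀ n ∈ N i, ∀ b ∈ B n, r ^ n * (L.η (n + 2) / 9) ≤ |θ - b|)}
  have hTc : IsCompact T := by
    refine isCompact_Icc (a := ctr - 2 * l) (b := ctr + 2 * l) |>.of_isClosed_subset ?_ ?_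
    · have e : T = {θ : ℝ | |θ - ctr| ≤ 2 * l} ∩
          ((⋂ i, {θ : ℝ | (R.c * (73 / 100)) * (1 + R.d) ^ (G i + 1) ≤
            ‖S.P (C i).K (L.s (G i + 1)) θ‖}) ∩
          (⋂ i, ⋂ n ∈ N i, ⋂ b ∈ B n, {θ : ℝ | r ^ n * (L.η (n + 2) / 9) ≤ |θ - b|})) := by
        ext θ
        simp only [T, mem_ofPred_eq, mem_inter_iff, mem_iInter]
      rw [e]
      refine IsClosed.inter (isClosed_le (by fun_prop) (by fun_prop)) (IsClosed.inter ?_ ?_)
      · refine isClosed_iInter fun i => isClosed_le continuous_const ?_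
        exact (continuous_P S _ _).norm
      · refine isClosed_iInter fun i => isClosed_iInter fun n => isClosed_iInter fun _ =>
          isClosed_iInter fun b => isClosed_iInter fun _ => isClosed_le (by fun_prop) (by fun_prop)
    · intro θ hθ
      have h1 := abs_le.1 hθ.1
      exact ⟨by linarith [h1.1], by linarith [h1.2]⟩
  have hTlim : ∀ θ ∈ T, Tendsto (fun s => ‖S.F s θ‖) (𝓝[>] 0) atTop := by
    rintro θ ⟨hT1, hT2, hT3⟩
    have hθΘ : θ ∈ Icc (-Θ) Θ := by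
      have h1 := abs_le.1 hT1
      have h2 := neg_abs_le ctr
      have h3 := le_abs_self ctr
      simp only [Θ]
      exact ⟨by linarith [h1.1], by linarith [h1.2]⟩
    have hψ : Tendsto (fun n : ℕ => min ((R.c / 4) * (1 + R.d) ^ (n + 1)) (t₀ / 2 ^ m * (r ^ m * (1 + R.d)) ^ n))
        atTop atTop := by
      rw [tendsto_atTop]
      intro b
      have h1 : Tendsto (fun n : ℕ => (R.c / 4) * (1 + R.d) ^ (n + 1)) atTop atTop := by
        apply Tendsto.const_mul_atTop (by positivity)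
        exact (tendsto_pow_atTop_atTop_of_one_lt (by linarith)).comp (tendsto_add_atTop_nat 1)
      have h2 : Tendsto (fun n : ℕ => t₀ / 2 ^ m * (r ^ m * (1 + R.d)) ^ n) atTop atTop := by
        apply Tendsto.const_mul_atTop (by positivity)
        exact tendsto_pow_atTop_atTop_of_one_lt hrm
      filter_upwards [h1.eventually_ge_atTop b, h2.eventually_ge_atTop b] with n ha hb
      exact le_min ha hb
    apply limit_lemma L θ _ hψ (G 0)
    intro n hn s hs
    -- find the window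
    obtain ⟨i, hi1, hi2⟩ : ∃ i : ℕ, G i ≤ n ∧ n < G (i + 1) := by
      have hex : ∃ j, n < G j := ⟨n + 1, by
        have := hGmono.id_le (n + 1)
        simp only [id] at this
        omega⟩
      have hpos : 0 < Nat.find hex := by
        rw [Nat.pos_iff_ne_zero]
        intro h0
        have := Nat.find_spec hex
        rw [h0] at this
        omega
      refine ⟨Nat.find hex - 1, ?_, ?_⟩
      · have := Nat.find_min hex (m := Nat.find hex - 1) (by omega)
        omega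
      · have h1 : Nat.find hex - 1 + 1 = Nat.find hex := by omega
        rw [h1]
        exact Nat.find_spec hex
    rcases eq_or_ne n (G i) with hA | hA
    · subst hA
      refine (min_le_left _ _).trans ?_
      exact large_left (C i) θ (hT2 i) s hs
    rcases eq_or_ne (n + 1) (G (i + 1)) with hA2 | hA2
    · refine (min_le_left _ _).trans ?_
      have h1 := large_right (C (i + 1)) θ (hT2 (i + 1)) s
        (by rw [← hA2]; exact hs)
      refine le_trans ?_ h1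
      have h2 : (1 + R.d) ^ (n + 1) ≤ (1 + R.d) ^ (G (i + 1) + 1) :=
        pow_le_pow_right₀ (by linarith) (by omega)
      have : 0 < R.c / 4 := by positivity
      nlinarith
    · have hmem : n ∈ N i := (hNmem i n).2 ⟨by omega, by omega⟩
      have h1 := (hBB n (hGbet i n (by omega) (by omega)) (hGbet i (n + 1) (by omega) (by omega))).2 θ hθΘ
        (fun b hb => lt_of_lt_of_le (by
          have hh := L.η_pos (n + 2)
          have hr' : 0 < r ^ n := by positivity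
          have : 0 < r ^ n * (L.η (n + 2) / 9) := by positivity
          have e : r ^ n / 2 * (L.η (n + 2) / 9) = r ^ n * (L.η (n + 2) / 9) / 2 := by ring
          rw [e]
          linarith) (hT3 i n hmem b hb)) s hs
      refine (min_le_right _ _).trans (le_trans ?_ h1)
      rw [mul_pow, div_pow, ← pow_mul, ← pow_mul, mul_comm n m, pow_succ]
      have h3 : 0 < (1 + R.d) ^ n := by positivity
      have h4 : 0 < r ^ (m * n) := by positivity
      have h5 : (1 + R.d) ^ n ≤ (1 + R.d) ^ n * (1 + R.d) := by nlinarith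
      calc t₀ / 2 ^ m * (r ^ (m * n) * (1 + R.d) ^ n) =
            (t₀ * (r ^ (m * n) / 2 ^ m)) * (1 + R.d) ^ n := by ring
        _ ≤ (t₀ * (r ^ (m * n) / 2 ^ m)) * ((1 + R.d) ^ n * (1 + R.d)) :=
            mul_le_mul_of_nonneg_left h5 (by positivity)
  refine ⟨T, R.w * Real.sqrt (ℓ 0), hTc, mul_pos hw (Real.sqrt_pos.2 (hℓpos 0)),
    fun θ hθ => ⟨hθ.1, hTlim θ hθ⟩, ?_⟩
  intro F0 b0 h0 hh0 hsum0
  let P0 : Finset (ℝ × ℝ) := F0.image (fun n => (b0 n, h0 n))
  let Pf : ℕ → Finset (ℝ × ℝ) := fun i => Nat.rec P0 (fun j P => P ∪ Fam j) i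
  have hPf0 : Pf 0 = P0 := rfl
  have hPfs : ∀ i, Pf (i + 1) = Pf i ∪ Fam i := fun i => rfl
  have hFampos : ∀ i, ∀ b ∈ Fam i, 0 < b.2 := by
    intro i b hb
    simp only [Fam, Finset.mem_biUnion, Finset.mem_image] at hb
    obtain ⟨n, -, b', -, rfl⟩ := hb
    have := L.η_pos (n + 2)
    positivity
  have hPfpos : ∀ i, ∀ b ∈ Pf i, 0 < b.2 := by
    intro i
    induction i with
    | zero =>
      intro b hb
      rw [hPf0] at hb
      obtain ⟨n, -, rfl⟩ := Finset.mem_image.1 hb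
      exact hh0 n
    | succ i ih =>
      intro b hb
      rw [hPfs, Finset.mem_union] at hb
      rcases hb with hb | hb
      · exact ih b hb
      · exact hFampos i b hb
  let Q : ℕ → ℝ → Prop := fun i θ => Good R L (C i) θ ∧ W (Pf i) θ (ℓ i) < R.w
  have hW0 : W P0 θ₀ (ℓ 0) < R.w := by
    have h1 : W P0 θ₀ (ℓ 0) ≤ ∑ n ∈ F0, Real.sqrt (h0 n / ℓ 0) := by
      unfold W
      refine (sum_image_le F0 (fun n => (b0 n, h0 n)) _ ?_).trans ?_
      · intro x
        split_ifs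
        · exact le_min zero_le_one (Real.sqrt_nonneg _)
        · exact le_rfl
      · refine Finset.sum_le_sum fun n _ => ?_
        split_ifs
        · exact min_le_right _ _
        · exact Real.sqrt_nonneg _
    have h2 : ∑ n ∈ F0, Real.sqrt (h0 n / ℓ 0) = (∑ n ∈ F0, Real.sqrt (h0 n)) / Real.sqrt (ℓ 0) := by
      rw [Finset.sum_div]
      exact Finset.sum_congr rfl fun n _ => Real.sqrt_div (hh0 n).le _
    rw [h2] at h1
    refine lt_of_le_of_lt h1 ?_
    rw [div_lt_iff₀ (Real.sqrt_pos.2 (hℓpos 0))]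
    exact hsum0
  have hQ0 : Q 0 θ₀ := ⟨hθ₀, hW0⟩
  have hGge : ∀ i, max n₁ n₂ ≤ G i := by
    intro i
    exact hg₀.trans (hGmono.monotone (Nat.zero_le i))
  have hstep : ∀ i θ, Q i θ → ℓ (i + 1) ≤ R.r₀ * ℓ i ∧ ∃ θ', |θ' - θ| ≤ ℓ i ∧ Q (i + 1) θ' := by
    rintro i θ ⟨hgood, hWi⟩
    have hge : ∀ n ∈ N i, max n₁ n₂ ≤ n := by
      intro n hn
      exact (hGge i).trans ((hNmem i n).1 hn).1.le
    obtain ⟨h1, θ', h2, h3, h4⟩ := step R rfl L (hGlt i) (C i) (C (i + 1)) θ hgood (Pf i) (hPfpos i) hWi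
      (N i) (fun n hn => (hNmem i n).1 hn) (fun n => r ^ n) B Lm
      (by
        intro n hn
        obtain ⟨ha, hb⟩ := (hNmem i n).1 hn
        exact (hBB n (hGbet i n ha (by omega)) (hGbet i (n + 1) (by omega) hb)).1)
      (fun n _ => by positivity)
      (fun n hn => hn₂ n ((le_max_right _ _).trans (hge n hn)))
      (hn₁ (N i) (fun n hn => (le_max_left _ _).trans (hge n hn)))
    exact ⟨h1, θ', h2, h3, by rw [hPfs]; exact h4⟩
  let st : (i : ℕ) → {θ // Q i θ} := fun i =>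
    Nat.rec (motive := fun i => {θ // Q i θ}) ⟨θ₀, hQ0⟩
      (fun i s => ⟨Classical.choose (hstep i s.1 s.2).2, (Classical.choose_spec (hstep i s.1 s.2).2).2⟩) i
  let th : ℕ → ℝ := fun i => (st i).1
  have hth0 : th 0 = θ₀ := rfl
  have hthQ : ∀ i, Q i (th i) := fun i => (st i).2
  have hths : ∀ i, |th (i + 1) - th i| ≤ ℓ i := fun i =>
    (Classical.choose_spec (hstep i (st i).1 (st i).2).2).1
  have hℓs : ∀ i, ℓ (i + 1) ≤ R.r₀ * ℓ i := fun i => (hstep i (st i).1 (st i).2).1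
  have hℓ4 : ∀ i, ℓ (i + 1) ≤ ℓ i / 4 := by
    intro i
    have := hℓs i
    have h2 := hℓpos i
    nlinarith
  have hℓgeo : ∀ i, ℓ i ≤ ℓ 0 * (1 / 4) ^ i := by
    intro i
    induction i with
    | zero => simp
    | succ i ih =>
      have := hℓ4 i
      rw [pow_succ]
      linarith
  have hnest : ∀ i, Icc (th (i + 1) - 2 * ℓ (i + 1)) (th (i + 1) + 2 * ℓ (i + 1)) ⊆
      Icc (th i - 2 * ℓ i) (th i + 2 * ℓ i) := by
    intro i x hx
    have h1 := abs_le.1 (hths i)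
    have h2 := hℓ4 i
    have h3 := hℓpos i
    have h4 := hℓpos (i + 1)
    constructor
    · have := hx.1; linarith [h1.1]
    · have := hx.2; linarith [h1.2]
  obtain ⟨θ, hθ⟩ : (⋂ i, Icc (th i - 2 * ℓ i) (th i + 2 * ℓ i)).Nonempty := by
    apply IsCompact.nonempty_iInter_of_sequence_nonempty_isCompact_isClosed
    · exact hnest
    · intro i
      refine ⟨th i, ?_, ?_⟩ <;> linarith [hℓpos i]
    · exact isCompact_Icc
    · intro i; exact isClosed_Icc
  rw [mem_iInter] at hθ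
  have hθi : ∀ i, |θ - th i| ≤ 2 * ℓ i := by
    intro i
    rw [abs_le]
    constructor
    · linarith [(hθ i).1]
    · linarith [(hθ i).2]
  have hθc : |θ - ctr| ≤ 2 * l := by
    have h1 := abs_le.1 (hθi 0)
    rw [hth0] at h1
    have h2 := abs_le.1 hθ₀c
    have h3 : ℓ 0 ≤ 1 / 4 * l := hℓ0.trans (mul_le_mul_of_nonneg_right hr₀1 hl0.le)
    rw [abs_le]
    constructor
    · linarith [h1.1, h2.1]
    · linarith [h1.2, h2.2]
  -- the point avoids all bad intervals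
  have hPfmono : ∀ i j, i ≤ j → Pf i ⊆ Pf j := by
    intro i j hij
    induction j, hij using Nat.le_induction with
    | base => exact Finset.Subset.refl _
    | succ j _ ih =>
      rw [hPfs]
      exact ih.trans Finset.subset_union_left
  have havd0 : ∀ i, ∀ b h : ℝ, (b, h) ∈ Pf i → h < |θ - b| := by
    intro i b h hmem
    have hhpos : 0 < h := hPfpos i (b, h) hmem
    by_contra hcon
    push Not at hcon
    -- choose j > i with ℓ j ≤ h
    obtain ⟨j, hj⟩ : ∃ j, ℓ 0 * (1 / 4) ^ j < h := by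
      have h1 : Tendsto (fun j : ℕ => ℓ 0 * (1 / 4 : ℝ) ^ j) atTop (𝓝 (ℓ 0 * 0)) :=
        (tendsto_pow_atTop_nhds_zero_of_lt_one (by norm_num) (by norm_num)).const_mul _
      rw [mul_zero] at h1
      exact (h1.eventually (gt_mem_nhds hhpos)).exists
    set k := max i j with hk
    have hk1 : ℓ k ≤ h := by
      have h1 := hℓgeo k
      have h2 : (1 / 4 : ℝ) ^ k ≤ (1 / 4) ^ j :=
        pow_le_pow_of_le_one (by norm_num) (by norm_num) (le_max_right _ _)
      have h3 := hℓpos 0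
      nlinarith
    have hmem2 : (b, h) ∈ Pf k := by
      exact hPfmono i k (le_max_left _ _) hmem
    have hW := (hthQ k).2
    have hle : (1 : ℝ) ≤ W (Pf k) (th k) (ℓ k) := by
      unfold W
      have hterm : (1 : ℝ) ≤ (if |((b, h) : ℝ × ℝ).1 - th k| ≤ 2 * ℓ k + ((b, h) : ℝ × ℝ).2 then
          min 1 (Real.sqrt (((b, h) : ℝ × ℝ).2 / ℓ k)) else 0) := by
        have hcond : |((b, h) : ℝ × ℝ).1 - th k| ≤ 2 * ℓ k + ((b, h) : ℝ × ℝ).2 := by
          have h1 := hθi k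
          have h2 : |b - th k| ≤ |θ - b| + |θ - th k| := by
            have : b - th k = -(θ - b) + (θ - th k) := by ring
            rw [this]
            calc |-(θ - b) + (θ - th k)| ≤ |-(θ - b)| + |θ - th k| := abs_add_le _ _
              _ = |θ - b| + |θ - th k| := by rw [abs_neg]
          simp only
          linarith
        rw [if_pos hcond]
        apply le_min le_rfl
        rw [Real.one_le_sqrt]
        rw [le_div_iff₀ (hℓpos k)]
        simp only
        linarith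
      refine hterm.trans ?_
      apply Finset.single_le_sum (f := fun b : ℝ × ℝ => if |b.1 - th k| ≤ 2 * ℓ k + b.2 then
          min 1 (Real.sqrt (b.2 / ℓ k)) else 0) _ hmem2
      intro b' _
      show 0 ≤ (if |b'.1 - th k| ≤ 2 * ℓ k + b'.2 then min 1 (Real.sqrt (b'.2 / ℓ k)) else 0)
      split_ifs
      · exact le_min zero_le_one (Real.sqrt_nonneg _)
      · exact le_rfl
    linarith
  have havd : ∀ i, ∀ n ∈ N i, ∀ b ∈ B n, r ^ n * (L.η (n + 2) / 9) < |θ - b| := by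
    intro i n hn b hb
    apply havd0 (i + 1) b
    rw [hPfs]
    apply Finset.mem_union_right
    simp only [Fam, Finset.mem_biUnion, Finset.mem_image]
    exact ⟨n, hn, b, hb, rfl⟩
  refine ⟨θ, ⟨hθc, fun i => (hthQ i).1.large θ (hθi i), fun i n hn b hb => (havd i n hn b hb).le⟩,
    fun n hn => havd0 0 _ _ ?_⟩
  rw [hPf0]
  exact Finset.mem_image_of_mem _ hn

end Pool.Agent.Y705.HD
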