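import Pool.Agent.Helper95.HadaMain

open Filter Topology Set

namespace Pool.Agent.Y705.HD

open Pool.Agent.Helper95.Hada

/-- the case of finitely many gaps: `|F| → ∞` on a set of positive measure in each window -/
theorem caseB_loc (q d Kb : ℝ) (hq : 1 < q) (hd : 0 < d) (hKb : 1 < Kb) (S : Ser) (hS : S.q = q)
    (L : Lev S d) (n₀ : ℕ) (hn : ∀ n, n₀ ≤ n → L.η n ≤ Kb * L.η (n + 1))
    (ctr l : ℝ) (hl0 : 0 < l) :
    MeasureTheory.volume {θ : ℝ | |θ - ctr| ≤ 2 * l ∧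
      Tendsto (fun s => ‖S.F s θ‖) (𝓝[>] 0) atTop} ≠ 0 := by
  obtain ⟨m, Lm, t₀, hm, ht₀, hav⟩ := avoid_global q d Kb hq hd hKb
  -- choose r
  obtain ⟨r, hr0, hr1, hrm⟩ : ∃ r : ℝ, 0 < r ∧ r < 1 ∧ 1 < r ^ m * (1 + d) := by
    have hc : Tendsto (fun r : ℝ => r ^ m * (1 + d)) (𝓝[<] 1) (𝓝 ((1:ℝ) ^ m * (1 + d))) := by
      apply Tendsto.mono_left _ nhdsWithin_le_nhds
      have : Continuous (fun r : ℝ => r ^ m * (1 + d)) := by fun_prop
      exact this.tendsto 1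
    have h1 : ∀ᶠ r in 𝓝[<] (1:ℝ), 1 < r ^ m * (1 + d) := by
      apply hc.eventually_const_lt
      simp; exact hd
    have h2 : ∀ᶠ r in 𝓝[<] (1:ℝ), r ∈ Set.Ioo (0:ℝ) 1 := Ioo_mem_nhdsLT (by norm_num)
    obtain ⟨r, hr⟩ := (h1.and h2).exists
    exact ⟨r, hr.2.1, hr.2.2, hr.1⟩
  obtain ⟨Θ, hΘ⟩ : ∃ Θ : ℝ, Θ = 1 + L.η 0 + |ctr| + 2 * l := ⟨_, rfl⟩
  have hΘ0 : 0 < Θ := by have := L.η_pos 0; rw [hΘ]; positivity
  have hηΘ : ∀ n, L.η n ≤ Θ := by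
    intro n
    have h1 : L.η n ≤ L.η 0 := L.η_anti (Nat.zero_le n)
    have h2 := abs_nonneg ctr
    linarith
  -- choose n1
  obtain ⟨n1, hn1, hn1s⟩ : ∃ n1, n₀ ≤ n1 ∧ 4 * (Lm:ℝ) * Θ * (r ^ n1 * (1 - r)⁻¹) < l := by
    have hc : Tendsto (fun n : ℕ => 4 * (Lm:ℝ) * Θ * (r ^ n * (1 - r)⁻¹)) atTop
        (𝓝 (4 * (Lm:ℝ) * Θ * (0 * (1 - r)⁻¹))) := by
      apply Tendsto.const_mul
      apply Tendsto.mul_const
      exact tendsto_pow_atTop_nhds_zero_of_lt_one hr0.le hr1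
    have h1 : ∀ᶠ n in atTop, 4 * (Lm:ℝ) * Θ * (r ^ n * (1 - r)⁻¹) < l := by
      apply hc.eventually_lt_const
      simpa using hl0
    obtain ⟨n, hn⟩ := (h1.and (eventually_ge_atTop n₀)).exists
    exact ⟨n, hn.2, hn.1⟩
  have hB : ∀ n, n₀ ≤ n → ∃ B : Finset ℝ,
      (B.card : ℝ) * (L.η (n + 2) / 9) ≤ Lm * (Θ + L.η (n + 2)) ∧
        ∀ θ ∈ Icc (-Θ) Θ, (∀ b ∈ B, r ^ n * (L.η (n + 2) / 9) < |θ - b|) →
          ∀ s ∈ Icc (L.s (n + 2)) (L.s (n + 1)), t₀ * (r ^ n) ^ m * (1 + d) ^ (n + 1) ≤ ‖S.F s θ‖ := by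
    intro n hn'
    obtain ⟨B, -, h1, h2⟩ := hav S hS L n (hn n hn') (hn (n+1) (by omega)) (r ^ n) Θ (by positivity)
      (pow_le_one₀ hr0.le hr1.le) hΘ0
    exact ⟨B, h1, h2⟩
  choose B hB1 hB2 using fun (n : ℕ) => hB (n + n1) (by omega)
  let U : ℕ → Set ℝ := fun n => ⋃ b ∈ B n, Icc (b - r ^ (n + n1) * (L.η (n + n1 + 2) / 9)) (b + r ^ (n + n1) * (L.η (n + n1 + 2) / 9))
  have hU : ∀ n, MeasureTheory.volume (U n) ≤ ENNReal.ofReal (4 * Lm * Θ * r ^ n1 * r ^ n) := by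
    intro n
    have hρ : 0 < L.η (n + n1 + 2) := L.η_pos _
    calc MeasureTheory.volume (U n) ≤ ∑ b ∈ B n, MeasureTheory.volume (Icc (b - r ^ (n + n1) * (L.η (n + n1 + 2) / 9)) (b + r ^ (n + n1) * (L.η (n + n1 + 2) / 9))) := MeasureTheory.measure_biUnion_finset_le _ _
      _ = ∑ b ∈ B n, ENNReal.ofReal (2 * (r ^ (n + n1) * (L.η (n + n1 + 2) / 9))) := by
          apply Finset.sum_congr rfl
          intro b _
          rw [Real.volume_Icc]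
          congr 1
          ring
      _ = ENNReal.ofReal ((B n).card * (2 * (r ^ (n + n1) * (L.η (n + n1 + 2) / 9)))) := by
          rw [Finset.sum_const, nsmul_eq_mul, ENNReal.ofReal_mul (by positivity)]
          simp
      _ ≤ ENNReal.ofReal (4 * Lm * Θ * r ^ n1 * r ^ n) := by
          apply ENNReal.ofReal_le_ofReal
          have h1 := hB1 n
          have h2 : (Lm:ℝ) * (Θ + L.η (n + n1 + 2)) ≤ Lm * (2 * Θ) := by
            apply mul_le_mul_of_nonneg_left _ (by positivity)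
            linarith [hηΘ (n + n1 + 2)]
          have h3 : ((B n).card : ℝ) * (L.η (n + n1 + 2) / 9) ≤ Lm * (2 * Θ) := h1.trans h2
          have hrp : 0 < r ^ (n + n1) := by positivity
          calc ((B n).card : ℝ) * (2 * (r ^ (n + n1) * (L.η (n + n1 + 2) / 9)))
              = 2 * r ^ (n + n1) * (((B n).card : ℝ) * (L.η (n + n1 + 2) / 9)) := by ring
            _ ≤ 2 * r ^ (n + n1) * (Lm * (2 * Θ)) := by
                apply mul_le_mul_of_nonneg_left h3 (by positivity)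
            _ = 4 * Lm * Θ * r ^ n1 * r ^ n := by rw [pow_add]; ring
  have hsum : HasSum (fun n : ℕ => 4 * (Lm:ℝ) * Θ * r ^ n1 * r ^ n) (4 * (Lm:ℝ) * Θ * r ^ n1 * (1 - r)⁻¹) :=
    (hasSum_geometric_of_lt_one hr0.le hr1).mul_left _
  have hUU : MeasureTheory.volume (⋃ n, U n) ≤ ENNReal.ofReal (4 * (Lm:ℝ) * Θ * r ^ n1 * (1 - r)⁻¹) := by
    calc MeasureTheory.volume (⋃ n, U n) ≤ ∑' n, MeasureTheory.volume (U n) := MeasureTheory.measure_iUnion_le _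
      _ ≤ ∑' n, ENNReal.ofReal (4 * Lm * Θ * r ^ n1 * r ^ n) := ENNReal.tsum_le_tsum hU
      _ = ENNReal.ofReal (∑' n, (4 * Lm * Θ * r ^ n1 * r ^ n)) := by
          rw [ENNReal.ofReal_tsum_of_nonneg (fun n => by positivity) hsum.summable]
      _ = _ := by rw [hsum.tsum_eq]
  have hpos : MeasureTheory.volume (Icc (ctr - l) (ctr + l) \ ⋃ n, U n) ≠ 0 := by
    have h1 := MeasureTheory.le_measure_sdiff (μ := MeasureTheory.volume)
      (s₁ := Icc (ctr - l) (ctr + l)) (s₂ := ⋃ n, U n)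
    have h2 : MeasureTheory.volume (⋃ n, U n) < MeasureTheory.volume (Icc (ctr - l) (ctr + l)) := by
      refine lt_of_le_of_lt hUU ?_
      rw [Real.volume_Icc]
      apply (ENNReal.ofReal_lt_ofReal_iff (by linarith)).2
      have h3 : 4 * (Lm:ℝ) * Θ * r ^ n1 * (1 - r)⁻¹ = 4 * (Lm:ℝ) * Θ * (r ^ n1 * (1 - r)⁻¹) := by
        ring
      rw [h3]
      linarith
    exact (lt_of_lt_of_le (tsub_pos_of_lt h2) h1).ne'
  intro hzero
  apply hpos
  refine MeasureTheory.measure_mono_null ?_ hzero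
  rintro θ ⟨hθ0, hθ2⟩
  have hθ1 : θ ∈ Icc (-Θ) Θ := by
    have h1 := neg_abs_le ctr
    have h2 := le_abs_self ctr
    have h3 := L.η_pos 0
    exact ⟨by linarith [hθ0.1], by linarith [hθ0.2]⟩
  refine ⟨abs_le.2 ⟨by linarith [hθ0.1], by linarith [hθ0.2]⟩, ?_⟩
  refine limit_lemma L θ (fun n => t₀ * (r ^ n) ^ m * (1 + d) ^ (n + 1)) ?_ n1 ?_
  · have : (fun n : ℕ => t₀ * (r ^ n) ^ m * (1 + d) ^ (n + 1)) = fun n : ℕ => (t₀ * (1 + d)) * (r ^ m * (1 + d)) ^ n := by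
      funext n
      rw [← pow_mul, mul_comm n m, pow_mul, mul_pow, pow_succ]
      ring
    rw [this]
    apply Tendsto.const_mul_atTop (by positivity)
    exact tendsto_pow_atTop_atTop_of_one_lt hrm
  · intro n hn' s hs
    obtain ⟨k, rfl⟩ : ∃ k, n = k + n1 := ⟨n - n1, by omega⟩
    refine hB2 k θ hθ1 ?_ s hs
    intro b hb
    by_contra hcon
    push Not at hcon
    apply hθ2
    rw [mem_iUnion]
    refine ⟨k, ?_⟩
    simp only [U, mem_iUnion]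
    refine ⟨b, hb, ?_⟩
    rw [abs_le] at hcon
    constructor
    · linarith [hcon.1]
    · linarith [hcon.2]


end Pool.Agent.Y705.HD
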