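import Mathlib

open Filter Topology Set MeasureTheory
open scoped ENNReal NNReal

namespace Pool.Agent.Y705.HD

/-- a compact set of reals which is not covered by finitely many intervals with a small sum of
square roots of the lengths has Hausdorff dimension at least one half -/
theorem dim_of_avoid (T : Set ℝ) (hT : IsCompact T) (δ : ℝ) (hδ : 0 < δ)
    (H : ∀ (F : Finset ℕ) (b h : ℕ → ℝ), (∀ n, 0 < h n) → ∑ n ∈ F, Real.sqrt (h n) < δ →
        ∃ θ ∈ T, ∀ n ∈ F, h n < |θ - b n|) : (1 / 2 : ℝ≥0∞) ≤ dimH T := by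
  have e12 : (1 / 2 : ℝ≥0∞) = ((1 / 2 : ℝ≥0) : ℝ≥0∞) := by
    rw [ENNReal.coe_div (by norm_num)]
    norm_num
  rw [e12]
  apply le_dimH_of_hausdorffMeasure_ne_zero
  intro h0
  have hcoe : (((1 / 2 : ℝ≥0) : ℝ≥0) : ℝ) = 1 / 2 := by norm_num
  rw [hcoe, Measure.hausdorffMeasure_apply] at h0
  have h1 : (⨅ (t : ℕ → Set ℝ) (_ : T ⊆ ⋃ n, t n) (_ : ∀ n, Metric.ediam (t n) ≤ 1),
      ∑' n, ⨆ _ : (t n).Nonempty, Metric.ediam (t n) ^ (1 / 2 : ℝ)) < ENNReal.ofReal (δ / 2) := by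
    refine lt_of_le_of_lt ?_ (ENNReal.ofReal_pos.2 (by positivity : 0 < δ / 2))
    rw [← h0]
    exact le_iSup₂ (f := fun (r : ℝ≥0∞) (_ : 0 < r) =>
      ⨅ (t : ℕ → Set ℝ) (_ : T ⊆ ⋃ n, t n) (_ : ∀ n, Metric.ediam (t n) ≤ r),
      ∑' n, ⨆ _ : (t n).Nonempty, Metric.ediam (t n) ^ (1 / 2 : ℝ)) 1 one_pos
  simp only [iInf_lt_iff] at h1
  obtain ⟨t, hcov, hdiam, hsum⟩ := h1
  classical
  set e : ℕ → ℝ := fun n => (δ / 8 * (1 / 2) ^ n) ^ 2 with he
  have hepos : ∀ n, 0 < e n := fun n => by positivity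
  have hesq : ∀ n, Real.sqrt (e n) = δ / 8 * (1 / 2) ^ n := fun n => by
    rw [he]
    exact Real.sqrt_sq (by positivity)
  set D : ℕ → ℝ := fun n => (Metric.ediam (t n)).toReal with hD
  have hDnn : ∀ n, 0 ≤ D n := fun n => ENNReal.toReal_nonneg
  have hfin : ∀ n, Metric.ediam (t n) ≠ ∞ := fun n => ne_top_of_le_ne_top ENNReal.one_ne_top (hdiam n)
  set h : ℕ → ℝ := fun n => D n + e n with hh
  have hhpos : ∀ n, 0 < h n := fun n => add_pos_of_nonneg_of_pos (hDnn n) (hepos n)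
  set b : ℕ → ℝ := fun n => if hn : (t n).Nonempty then hn.some else 0 with hb
  have hball : ∀ n, t n ⊆ Metric.ball (b n) (h n) := by
    intro n x hx
    have hn : (t n).Nonempty := ⟨x, hx⟩
    have hbn : b n = hn.some := by
      simp only [hb, dif_pos hn]
    have h2 : edist x (b n) ≤ Metric.ediam (t n) := by
      rw [hbn]
      exact Metric.edist_le_ediam_of_mem hx hn.some_mem
    rw [Metric.mem_ball]
    have h3 : dist x (b n) ≤ D n := by
      rw [dist_edist]
      exact ENNReal.toReal_mono (hfin n) h2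
    have := hepos n
    show dist x (b n) < D n + e n
    linarith
  obtain ⟨F, hF⟩ := hT.elim_finite_subcover (fun n => Metric.ball (b n) (h n))
    (fun n => Metric.isOpen_ball) (hcov.trans (iUnion_mono hball))
  have hsqD : ∀ n, ENNReal.ofReal (Real.sqrt (D n)) ≤
      ⨆ _ : (t n).Nonempty, Metric.ediam (t n) ^ (1 / 2 : ℝ) := by
    intro n
    by_cases hn : (t n).Nonempty
    · rw [iSup_pos hn, Real.sqrt_eq_rpow, hD]
      simp only
      rw [ENNReal.toReal_rpow, ENNReal.ofReal_toReal]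
      exact ENNReal.rpow_ne_top_of_nonneg (by norm_num) (hfin n)
    · have h2 : t n = ∅ := not_nonempty_iff_eq_empty.1 hn
      have h3 : D n = 0 := by
        simp only [hD, h2, Metric.ediam_empty, ENNReal.toReal_zero]
      rw [h3]
      simp
  have hS1 : ∑ n ∈ F, Real.sqrt (D n) ≤ δ / 2 := by
    have h2 : ENNReal.ofReal (∑ n ∈ F, Real.sqrt (D n)) ≤ ENNReal.ofReal (δ / 2) := by
      rw [ENNReal.ofReal_sum_of_nonneg (fun n _ => Real.sqrt_nonneg _)]
      refine (Finset.sum_le_sum fun n _ => hsqD n).trans ?_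
      exact (ENNReal.sum_le_tsum F).trans hsum.le
    exact (ENNReal.ofReal_le_ofReal_iff (by positivity)).1 h2
  have hS2 : ∑ n ∈ F, Real.sqrt (e n) ≤ δ / 4 := by
    have h2 : ∑ n ∈ F, Real.sqrt (e n) = δ / 8 * ∑ n ∈ F, (1 / 2 : ℝ) ^ n := by
      rw [Finset.mul_sum]
      exact Finset.sum_congr rfl fun n _ => hesq n
    have h3 : ∑ n ∈ F, (1 / 2 : ℝ) ^ n ≤ 2 := by
      have h4 := summable_geometric_two.sum_le_tsum F (fun n _ => by positivity)
      rwa [tsum_geometric_two] at h4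
    rw [h2]
    nlinarith
  have hS3 : ∑ n ∈ F, Real.sqrt (h n) < δ := by
    have h2 : ∑ n ∈ F, Real.sqrt (h n) ≤ ∑ n ∈ F, (Real.sqrt (D n) + Real.sqrt (e n)) :=
      Finset.sum_le_sum fun n _ => by
        have ha := Real.sqrt_nonneg (D n)
        have hb' := Real.sqrt_nonneg (e n)
        rw [Real.sqrt_le_left (by positivity)]
        have h3 := Real.sq_sqrt (hDnn n)
        have h4 := Real.sq_sqrt (hepos n).le
        have h5 := mul_nonneg ha hb'
        show D n + e n ≤ _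
        nlinarith
    rw [Finset.sum_add_distrib] at h2
    linarith
  obtain ⟨θ, hθT, hθ⟩ := H F b h hhpos hS3
  have h5 := hF hθT
  simp only [mem_iUnion] at h5
  obtain ⟨n, hn, hnb⟩ := h5
  have h6 := hθ n hn
  rw [Metric.mem_ball, Real.dist_eq] at hnb
  linarith

end Pool.Agent.Y705.HD
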