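import Pool.Agent.Helper95.HadaMain

open Filter Topology Set

namespace Pool.Agent.Y705.HD

open Pool.Agent.Helper95.Hada

/-- a lower bound for `|F|` to the left of the cut from the size of `P` at the same point -/
theorem large_left {q : ℝ} {R : Par q} {S : Ser} {L : Lev S R.d} {g : ℕ}
    (C : Cut L R.Cs R.ε₁ R.κ g) (θ : ℝ)
    (h1 : (R.c * (73 / 100)) * (1 + R.d) ^ (g + 1) ≤ ‖S.P C.K (L.s (g + 1)) θ‖) (s : ℝ) (hs : s ∈ Icc (L.s (g + 2)) (L.s (g + 1))) :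
    (R.c / 4) * (1 + R.d) ^ (g + 1) ≤ ‖S.F s θ‖ := by
  have h2 := C.tail_le
  have hc := R.c_pos
  have hc1 := R.c_le
  have hd : R.d = R.c / 20 := rfl
  have hM : 0 < (1 + R.d) ^ (g + 1) := by
    have : 0 < 1 + R.d := by rw [hd]; linarith
    positivity
  have hs0 : 0 < s := lt_of_lt_of_le (L.s_pos _) hs.1
  have h3 := S.norm_F_sub_P_le C.K hs0 hs.2 θ
  have h4 := S.M_anti_aux (L.s_pos (g + 2)) hs.1
  rw [L.hM] at h4
  have h5 : (1 + R.d) ^ (g + 2) = (1 + R.d) * (1 + R.d) ^ (g + 1) := by ring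
  rw [h5] at h4
  have h6 : ‖S.P C.K (L.s (g + 1)) θ‖ - ‖S.F s θ‖ ≤ ‖S.F s θ - S.P C.K (L.s (g + 1)) θ‖ := by
    rw [norm_sub_rev]; exact norm_sub_norm_le _ _
  set M := (1 + R.d) ^ (g + 1) with hMdef
  have h7 : R.d * M = R.c * M / 20 := by rw [hd]; ring
  have h8 : 0 < R.c * M := mul_pos hc hM
  have h9 : 2 * R.d * M = R.c * M / 10 := by rw [hd]; ring
  nlinarith

/-- a lower bound for `|F|` to the right of the cut from the size of `P` at the same point -/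
theorem large_right {q : ℝ} {R : Par q} {S : Ser} {L : Lev S R.d} {g : ℕ}
    (C : Cut L R.Cs R.ε₁ R.κ g) (θ : ℝ)
    (h1 : (R.c * (73 / 100)) * (1 + R.d) ^ (g + 1) ≤ ‖S.P C.K (L.s (g + 1)) θ‖) (s : ℝ) (hs : s ∈ Icc (L.s (g + 1)) (L.s g)) :
    (R.c / 4) * (1 + R.d) ^ (g + 1) ≤ ‖S.F s θ‖ := by
  have h2 := C.tail_le
  have hc := R.c_pos
  have hc1 := R.c_le
  have hd : R.d = R.c / 20 := rfl
  have hd0 : 0 < 1 + R.d := by rw [hd]; linarith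
  have hM : 0 < (1 + R.d) ^ (g + 1) := by positivity
  have hMg : 0 < (1 + R.d) ^ g := by positivity
  have hs0 : 0 < s := lt_of_lt_of_le (L.s_pos _) hs.1
  have h3 := S.norm_F_sub_P_le' C.K (L.s_pos (g + 1)) hs.1 θ
  have h4 := S.M_anti_aux hs0 hs.2
  rw [L.hM] at h4
  have h5 := S.tail_anti C.K (L.s_pos (g + 1)) hs.1
  rw [L.hM] at h5
  have h10 := S.m_le_M C.K (L.s_pos (g + 1))
  rw [L.hM] at h10
  have h6 : ‖S.P C.K (L.s (g + 1)) θ‖ - ‖S.F s θ‖ ≤ ‖S.F s θ - S.P C.K (L.s (g + 1)) θ‖ := by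
    rw [norm_sub_rev]; exact norm_sub_norm_le _ _
  have h11 : (1 + R.d) ^ (g + 1) = (1 + R.d) * (1 + R.d) ^ g := by ring
  have h12 : (1 + R.d) ^ g ≤ (1 + R.d) ^ (g + 1) := by
    rw [h11]; nlinarith [hd]
  have h13 : R.d * (1 + R.d) ^ g ≤ R.d * (1 + R.d) ^ (g + 1) :=
    mul_le_mul_of_nonneg_left h12 (by rw [hd]; linarith)
  have h14 : (1 + R.d) ^ (g + 1) - (1 + R.d) ^ g ≤ R.d * (1 + R.d) ^ (g + 1) := by
    nlinarith
  set M := (1 + R.d) ^ (g + 1) with hMdef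
  have h7 : R.d * M = R.c * M / 20 := by rw [hd]; ring
  have h8 : 0 < R.c * M := mul_pos hc hM
  have h9 : 2 * R.d * M = R.c * M / 10 := by rw [hd]; ring
  linarith

/-- a starting point in a prescribed window `[c - l, c + l]` -/
theorem init_loc {q : ℝ} (R : Par q) {S : Ser} (hq : S.q = q) (L : Lev S R.d) {g : ℕ}
    (C : Cut L R.Cs R.ε₁ R.κ g) (ctr l : ℝ) (hl0 : 0 < l) (hll : R.CV ≤ S.lam 0 * l)
    (a3 : R.ε / C.Λ ≤ R.r₀ * l) : ∃ θ₀ : ℝ, |θ₀ - ctr| ≤ l ∧ Good R L C θ₀ := by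
  have hc := R.c_pos
  have hc1 := R.c_le
  have hs : 0 < L.s (g + 1) := L.s_pos _
  have hd : 0 < R.d := L.d_pos
  have hM : 0 < (1 + R.d) ^ (g + 1) := by positivity
  have hV : 0 ≤ S.m C.K (L.s (g + 1)) := Finset.sum_nonneg fun k _ => S.x_nonneg k _
  have hε : 0 < R.ε := by unfold Par.ε; positivity
  have hκ : 0 < R.κ := by unfold Par.κ; positivity
  have hw : 0 < R.w := by unfold Par.w; positivity
  have hr : 0 < R.r₀ := by unfold Par.r₀; positivity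
  have hl2 : 0 < R.ε / C.Λ := div_pos hε C.hΛ
  have hlam := S.lam_pos 0
  have hCV : 0 < R.CV := lt_of_lt_of_le (by norm_num) R.hCV
  obtain ⟨μ, β, n, hμ0, hμ, hdr⟩ := R.drift S.lam (fun k => S.x k (L.s (g + 1)))
    (fun k => (S.a k).arg) 0 C.K ctr l S.lam_pos (fun k => hq ▸ S.ratio k)
    (fun k => S.x_nonneg k _) hl0 hll
  have a1 : 24000 * Real.sqrt R.w ≤ R.c := by
    unfold Par.w
    rw [Real.sqrt_sq (by positivity)]
    linarith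
  have a2 : 24000 * R.r₀ ^ ((1 : ℝ) / 4) ≤ R.c := by
    unfold Par.r₀
    have : ((R.c / 24000) ^ 4 : ℝ) ^ ((1 : ℝ) / 4) = R.c / 24000 := by
      rw [← Real.rpow_natCast, ← Real.rpow_mul (by positivity)]
      norm_num
    rw [this]; linarith
  have a4 : 4 ≤ μ 0 * l := by
    have h1 : S.lam 0 * l ≤ μ 0 * l := mul_le_mul_of_nonneg_right hμ0 hl0.le
    have := R.hCV
    linarith
  have a5 : Continuous (fun θ : ℝ => ∑ k ∈ Finset.Ico 0 C.K, S.x k (L.s (g + 1)) *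
      Real.cos (S.lam k * θ + (S.a k).arg)) := by
    fun_prop
  have a6 : ∀ θ : ℝ, (fun θ : ℝ => ∑ k ∈ Finset.Ico 0 C.K, S.x k (L.s (g + 1)) *
      Real.cos (S.lam k * θ + (S.a k).arg)) θ ≤ S.m C.K (L.s (g + 1)) := by
    intro θ
    simp only [Ser.m, Finset.range_eq_Ico]
    refine Finset.sum_le_sum fun k _ => ?_
    have := Real.cos_le_one (S.lam k * θ + (S.a k).arg)
    have := S.x_nonneg k (L.s (g + 1))
    nlinarith
  have a7 : 4 * R.c * S.m C.K (L.s (g + 1)) ≤ (1 / (2 * l)) * ∫ θ in (ctr - l)..(ctr + l),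
      rp μ β n θ * (fun θ : ℝ => ∑ k ∈ Finset.Ico 0 C.K, S.x k (L.s (g + 1)) *
      Real.cos (S.lam k * θ + (S.a k).arg)) θ := by
    rw [← R.c_eq]
    simpa only [Ser.m, Finset.range_eq_Ico] using hdr
  obtain ⟨t, htl, ht, -⟩ := select R.c R.w R.r₀ hc hc1 hw a1 hr a2 μ β n (hlam.trans_le hμ0) hμ
    ctr l (R.ε / C.Λ) ((1 + R.d) ^ (g + 1)) (S.m C.K (L.s (g + 1))) R.κ hl2 a3 a4 hM hκ hV
    _ a5 a6 a7 ∅ (by simp) (by simpa [W] using hw) ∅ (fun _ => 0) (fun _ => 0) (fun _ => ∅) 0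
    (by simp) (by simp) (by simp) (by simp) (by simp) (by simp; positivity)
  refine ⟨t, htl, fun θ hθ => ?_⟩
  have h1 : ‖S.P C.K (L.s (g + 1)) t - S.P C.K (L.s (g + 1)) θ‖ ≤
      C.Λ * |t - θ| * S.m C.K (L.s (g + 1)) := S.norm_P_sub_P_le C.K C.Λ C.hK _ _ _
  have h2 : ‖S.P C.K (L.s (g + 1)) t‖ ≤ ‖S.P C.K (L.s (g + 1)) θ‖ +
      ‖S.P C.K (L.s (g + 1)) t - S.P C.K (L.s (g + 1)) θ‖ := by
    have := norm_add_le (S.P C.K (L.s (g + 1)) θ) (S.P C.K (L.s (g + 1)) t - S.P C.K (L.s (g + 1)) θ)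
    simpa using this
  have h3 : (S.P C.K (L.s (g + 1)) t).re ≤ ‖S.P C.K (L.s (g + 1)) t‖ := Complex.re_le_norm _
  rw [S.re_P] at h3
  have h4 : C.Λ * |t - θ| ≤ 2 * R.ε := by
    rw [abs_sub_comm]
    calc C.Λ * |θ - t| ≤ C.Λ * (2 * (R.ε / C.Λ)) := mul_le_mul_of_nonneg_left hθ C.hΛ.le
      _ = 2 * R.ε := by have := C.hΛ; field_simp
  have h5 : C.Λ * |t - θ| * S.m C.K (L.s (g + 1)) ≤ 2 * R.ε * S.m C.K (L.s (g + 1)) :=
    mul_le_mul_of_nonneg_right h4 hV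
  have h6 : 2 * R.ε ≤ R.c := by
    unfold Par.ε; nlinarith
  have h7 : R.κ ≤ R.κ' := by
    unfold Par.κ Par.κ'; linarith
  have h8 : 2 * R.ε * S.m C.K (L.s (g + 1)) ≤ R.c * S.m C.K (L.s (g + 1)) :=
    mul_le_mul_of_nonneg_right h6 hV
  have h9 : R.κ * (1 + R.d) ^ (g + 1) ≤ R.κ' * (1 + R.d) ^ (g + 1) :=
    mul_le_mul_of_nonneg_right h7 hM.le
  nlinarith


end Pool.Agent.Y705.HD
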