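import Pool.Agent.Y705.HD.Ser

open Filter Topology Set
open scoped ENNReal NNReal

namespace Pool.Agent.Y705.HD

open Pool.Agent.Helper95.Hada

theorem norm_pow_exp (s : ℝ) (c : ℂ) (m : ℕ) (z : ℂ) (hz : ‖z‖ = Real.exp (-s)) :
    ‖c * z ^ m‖ = ‖c‖ * Real.exp (-((m : ℝ) * s)) := by
  rw [norm_mul, norm_pow, hz, ← Real.exp_nat_mul]
  congr 2
  ring

/-- passage from a power series with Hadamard gaps to the exponential series -/
theorem setup (f : ℂ → ℂ) (q : ℝ) (lam : ℕ → ℕ) (a : ℕ → ℂ) (hq : 1 < q) (hmono : StrictMono lam)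
    (hgap : ∀ n, 1 ≤ lam n → q * (lam n : ℝ) ≤ (lam (n + 1) : ℝ))
    (hsum : ∀ z : ℂ, ‖z‖ < 1 → HasSum (fun n => a n * z ^ lam n) (f z))
    (hA : ¬ Summable (fun n => ‖a n‖)) :
    ∃ S : Ser, Tendsto S.M (𝓝[>] 0) atTop ∧ ∀ θ : ℝ,
      Tendsto (fun s => ‖S.F s θ‖) (𝓝[>] 0) atTop →
      Tendsto (fun r : ℝ => ‖f (r * Complex.exp (θ * Complex.I))‖) (𝓝[<] 1) atTop := by
  have hlam1 : ∀ k, 1 ≤ lam (k + 1) := fun k => by
    have : lam k < lam (k + 1) := hmono (Nat.lt_succ_self k)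
    omega
  -- summability
  have hsm : ∀ s : ℝ, 0 < s → Summable (fun n => ‖a n‖ * Real.exp (-((lam n : ℝ) * s))) := by
    intro s hs
    have hz : ‖((Real.exp (-s) : ℝ) : ℂ)‖ = Real.exp (-s) := by
      rw [Complex.norm_real, Real.norm_eq_abs, abs_of_pos (Real.exp_pos _)]
    have h1 := (hsum ((Real.exp (-s) : ℝ) : ℂ) (by
      rw [hz, Real.exp_lt_one_iff]; linarith)).summable.norm
    refine h1.congr fun n => ?_
    exact norm_pow_exp s (a n) (lam n) _ hz
  set S : Ser :=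
    { q := q
      lam := fun k => (lam (k + 1) : ℝ)
      a := fun k => a (k + 1)
      one_lt_q := hq
      lam_pos := fun k => by have := hlam1 k; positivity
      ratio := fun k => hgap (k + 1) (hlam1 k)
      summ := fun s hs => (summable_nat_add_iff 1).2 (hsm s hs) } with hS
  have hnot : ¬ Summable (fun k => ‖a (k + 1)‖) := fun h => hA ((summable_nat_add_iff 1).1 h)
  have hM : Tendsto S.M (𝓝[>] 0) atTop := by
    rw [tendsto_atTop]
    intro B
    rw [not_summable_iff_tendsto_nat_atTop_of_nonneg (fun _ => norm_nonneg _)] at hnot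
    obtain ⟨K, hK⟩ := (tendsto_atTop.1 hnot (B + 1)).exists
    have h1 : Tendsto (fun s : ℝ => ∑ k ∈ Finset.range K, S.x k s) (𝓝 0)
        (𝓝 (∑ k ∈ Finset.range K, S.x k 0)) := by
      apply Continuous.tendsto
      unfold Ser.x
      fun_prop
    have h2 : ∑ k ∈ Finset.range K, S.x k 0 = ∑ k ∈ Finset.range K, ‖a (k + 1)‖ := by
      apply Finset.sum_congr rfl
      intro k _
      simp [Ser.x, hS]
    rw [h2] at h1
    have h3 : ∀ᶠ s in 𝓝[>] (0 : ℝ), B < ∑ k ∈ Finset.range K, S.x k s :=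
      (h1.mono_left nhdsWithin_le_nhds).eventually_const_lt (by linarith)
    filter_upwards [h3, self_mem_nhdsWithin] with s hs hs0
    refine hs.le.trans ?_
    unfold Ser.M
    exact (S.summ s hs0).sum_le_tsum _ (fun i _ => mul_nonneg (norm_nonneg _) (Real.exp_pos _).le)
  refine ⟨S, hM, fun θ hθ => ?_⟩
  have hlog : Tendsto (fun r : ℝ => -Real.log r) (𝓝[<] 1) (𝓝[>] 0) := by
    rw [tendsto_nhdsWithin_iff]
    constructor
    · have h1 : Tendsto (fun r : ℝ => -Real.log r) (𝓝 1) (𝓝 (-Real.log 1)) :=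
        (Real.continuousAt_log one_ne_zero).neg
      rw [Real.log_one, neg_zero] at h1
      exact h1.mono_left nhdsWithin_le_nhds
    · have h4 : ∀ᶠ r : ℝ in 𝓝[<] 1, r ∈ Set.Ioo (0 : ℝ) 1 :=
        Ioo_mem_nhdsLT (by norm_num)
      filter_upwards [h4] with r hr
      have := Real.log_neg hr.1 hr.2
      simp only [Set.mem_Ioi]
      linarith
  have hF := hθ.comp hlog
  have hG : Tendsto (fun r : ℝ => ‖f (r * Complex.exp (θ * Complex.I))‖) (𝓝[<] 1) atTop := by
    have h1 : Tendsto (fun r : ℝ => ‖S.F (-Real.log r) θ‖ - ‖a 0‖) (𝓝[<] 1) atTop :=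
      tendsto_atTop_add_const_right _ _ hF
    refine tendsto_atTop_mono' _ ?_ h1
    have h4 : ∀ᶠ r : ℝ in 𝓝[<] 1, r ∈ Set.Ioo (0 : ℝ) 1 :=
      Ioo_mem_nhdsLT (by norm_num)
    filter_upwards [h4] with r hr
    have hz : (r : ℂ) * Complex.exp (θ * Complex.I) = Complex.exp (⟨Real.log r, θ⟩ : ℂ) := by
      have : (⟨Real.log r, θ⟩ : ℂ) = (Real.log r : ℂ) + θ * Complex.I := by
        apply Complex.ext <;> simp
      rw [this, Complex.exp_add, ← Complex.ofReal_exp, Real.exp_log hr.1]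
    have hnz : ‖(r : ℂ) * Complex.exp (θ * Complex.I)‖ = r := by
      rw [norm_mul, Complex.norm_exp_ofReal_mul_I, mul_one, Complex.norm_real,
        Real.norm_eq_abs, abs_of_pos hr.1]
    have hs1 := hsum ((r : ℂ) * Complex.exp (θ * Complex.I)) (by rw [hnz]; exact hr.2)
    have h5 : f ((r : ℂ) * Complex.exp (θ * Complex.I)) =
        a 0 * ((r : ℂ) * Complex.exp (θ * Complex.I)) ^ lam 0 + S.F (-Real.log r) θ := by
      rw [← hs1.tsum_eq, hs1.summable.tsum_eq_zero_add]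
      congr 1
      unfold Ser.F Ser.G
      refine tsum_congr fun k => ?_
      simp only [hS]
      congr 1
      rw [hz, neg_neg, ← Complex.exp_nat_mul]
      simp
    rw [h5]
    have h6 : ‖a 0 * ((r : ℂ) * Complex.exp (θ * Complex.I)) ^ lam 0‖ ≤ ‖a 0‖ := by
      rw [norm_mul, norm_pow, hnz]
      have : r ^ lam 0 ≤ 1 := pow_le_one₀ hr.1.le hr.2.le
      have h5 := norm_nonneg (a 0)
      nlinarith
    have h7 := norm_sub_norm_le (S.F (-Real.log r) θ)
      (-(a 0 * ((r : ℂ) * Complex.exp (θ * Complex.I)) ^ lam 0))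
    rw [norm_neg, sub_neg_eq_add, add_comm] at h7
    linarith
  exact hG

/-- the set of directions in `(α, β)` with radial limit `∞` has dimension at least one half -/
theorem dim_inf (f : ℂ → ℂ) (q : ℝ) (lam : ℕ → ℕ) (a : ℕ → ℂ) (hq : 1 < q) (hmono : StrictMono lam)
    (hgap : ∀ n, 1 ≤ lam n → q * (lam n : ℝ) ≤ (lam (n + 1) : ℝ))
    (hsum : ∀ z : ℂ, ‖z‖ < 1 → HasSum (fun n => a n * z ^ lam n) (f z))
    (hA : ¬ Summable (fun n => ‖a n‖)) (α β : ℝ) (hαβ : α < β) :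
    (1 / 2 : ℝ≥0∞) ≤ dimH {θ : ℝ | θ ∈ Ioo α β ∧
      Tendsto (fun r : ℝ => ‖f (r * Complex.exp (θ * Complex.I))‖) (𝓝[<] 1) atTop} := by
  obtain ⟨S, hM, hS⟩ := setup f q lam a hq hmono hgap hsum hA
  exact (dim_ser S hM α β hαβ).trans (dimH_mono fun θ hθ => ⟨hθ.1, hS θ hθ.2⟩)

/-- an absolutely convergent power series is continuous up to the boundary -/
theorem cont_ext (f : ℂ → ℂ) (lam : ℕ → ℕ) (a : ℕ → ℂ)
    (hsum : ∀ z : ℂ, ‖z‖ < 1 → HasSum (fun n => a n * z ^ lam n) (f z))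
    (hA : Summable (fun n => ‖a n‖)) :
    ∃ g : ℂ → ℂ, ContinuousOn g (Metric.closedBall 0 1) ∧ ∀ z : ℂ, ‖z‖ < 1 → g z = f z := by
  refine ⟨fun z => ∑' n, a n * z ^ lam n, ?_, fun z hz => (hsum z hz).tsum_eq⟩
  refine continuousOn_tsum (fun n => by fun_prop) hA fun n z hz => ?_
  rw [norm_mul, norm_pow]
  have h1 : ‖z‖ ≤ 1 := by simpa using hz
  exact mul_le_of_le_one_right (norm_nonneg _) (pow_le_one₀ (norm_nonneg _) h1)

/-- continuity up to the boundary gives radial limits -/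
theorem tendsto_of_cont (f g : ℂ → ℂ) (hg : ContinuousOn g (Metric.closedBall 0 1))
    (hgf : ∀ z : ℂ, ‖z‖ < 1 → g z = f z) (θ : ℝ) :
    Tendsto (fun r : ℝ => f (r * Complex.exp (θ * Complex.I))) (𝓝[<] 1)
      (𝓝 (g (Complex.exp (θ * Complex.I)))) := by
  have hz : ‖Complex.exp (θ * Complex.I)‖ = 1 := Complex.norm_exp_ofReal_mul_I θ
  have h1 : ContinuousWithinAt g (Metric.closedBall 0 1) (Complex.exp (θ * Complex.I)) :=
    hg _ (by simp [hz])
  have h4 : ∀ᶠ r : ℝ in 𝓝[<] 1, r ∈ Set.Ioo (0 : ℝ) 1 := Ioo_mem_nhdsLT (by norm_num)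
  have h2 : Tendsto (fun r : ℝ => (r : ℂ) * Complex.exp (θ * Complex.I)) (𝓝[<] 1)
      (𝓝[Metric.closedBall 0 1] (Complex.exp (θ * Complex.I))) := by
    rw [tendsto_nhdsWithin_iff]
    constructor
    · have h3 : Tendsto (fun r : ℝ => (r : ℂ) * Complex.exp (θ * Complex.I)) (𝓝 1)
          (𝓝 (((1 : ℝ) : ℂ) * Complex.exp (θ * Complex.I))) := by
        apply Continuous.tendsto
        fun_prop
      rw [Complex.ofReal_one, one_mul] at h3
      exact h3.mono_left nhdsWithin_le_nhds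
    · filter_upwards [h4] with r hr
      rw [Metric.mem_closedBall, dist_zero_right, norm_mul, hz, mul_one, Complex.norm_real,
        Real.norm_eq_abs, abs_of_pos hr.1]
      exact hr.2.le
  refine (h1.tendsto.comp h2).congr' ?_
  filter_upwards [h4] with r hr
  show g _ = f _
  apply hgf
  rw [norm_mul, hz, mul_one, Complex.norm_real, Real.norm_eq_abs, abs_of_pos hr.1]
  exact hr.2

end Pool.Agent.Y705.HD
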