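import Pool.Agent.Y705.HD.CaseA
import Pool.Agent.Y705.HD.CaseB
import Pool.Agent.Y705.HD.Dim

open Filter Topology Set
open scoped ENNReal NNReal

namespace Pool.Agent.Y705.HD

open Pool.Agent.Helper95.Hada

/-- the good set in a window: the window has to be long compared with `1 / lam 0` -/
theorem window (q : ℝ) (hq : 1 < q) : ∃ CV : ℝ, 0 < CV ∧ ∀ S : Ser, S.q = q →
    Tendsto S.M (𝓝[>] 0) atTop → ∀ ctr l : ℝ, 0 < l → CV ≤ S.lam 0 * l →
      (1 / 2 : ℝ≥0∞) ≤ dimH {θ : ℝ | |θ - ctr| ≤ 2 * l ∧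
        Tendsto (fun s => ‖S.F s θ‖) (𝓝[>] 0) atTop} := by
  obtain ⟨R⟩ := exists_par q hq
  refine ⟨R.CV, lt_of_lt_of_le (by norm_num) R.hCV, ?_⟩
  rintro S rfl hS ctr l hl hll
  have hc := R.c_pos
  have hd : 0 < R.d := by unfold Par.d; linarith
  have hκ : 0 < R.κ := by unfold Par.κ; linarith
  have hε₁ : 0 < R.ε₁ := by
    unfold Par.ε₁
    apply Real.log_pos
    nlinarith [mul_pos hκ hd]
  obtain ⟨L⟩ := exists_lev S hS R.d hd
  obtain ⟨Kb, hKb, hcut⟩ := exists_cut R.d hd R.Cs R.ε₁ R.κ R.one_lt_Cs hε₁ hκ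
  by_cases hB : ∃ n₀, ∀ n, n₀ ≤ n → L.η n ≤ Kb * L.η (n + 1)
  · obtain ⟨n₀, hn⟩ := hB
    have h1 := caseB_loc S.q R.d Kb S.one_lt_q hd hKb S rfl L n₀ hn ctr l hl
    have h2 : ((1 : ℝ≥0) : ℝ≥0∞) ≤ dimH {θ : ℝ | |θ - ctr| ≤ 2 * l ∧
        Tendsto (fun s => ‖S.F s θ‖) (𝓝[>] 0) atTop} := by
      apply le_dimH_of_hausdorffMeasure_ne_zero
      rw [NNReal.coe_one, MeasureTheory.hausdorffMeasure_real]
      exact h1
    refine le_trans ?_ h2
    rw [ENNReal.coe_one]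
    exact ENNReal.half_le_self
  · push Not at hB
    obtain ⟨T, δ, hTc, hδ, hT, H⟩ := caseA S R L Kb hKb (fun n => hcut S L n) hB ctr l hl hll
    exact (dim_of_avoid T hTc δ hδ H).trans (dimH_mono fun θ hθ => hT θ hθ)

/-- the series without its first `K` terms -/
noncomputable def tailSer (S : Ser) (K : ℕ) : Ser where
  q := S.q
  lam := fun k => S.lam (k + K)
  a := fun k => S.a (k + K)
  one_lt_q := S.one_lt_q
  lam_pos := fun k => S.lam_pos _
  ratio := fun k => by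
    have h := S.ratio (k + K)
    rwa [show k + K + 1 = k + 1 + K by ring] at h
  summ := fun s hs => (summable_nat_add_iff K).2 (S.summ s hs)

theorem F_tail (S : Ser) (K : ℕ) {s : ℝ} (hs : 0 < s) (θ : ℝ) :
    S.F s θ = S.P K s θ + (tailSer S K).F s θ := by
  have hsum : Summable (fun k => S.a k * Complex.exp (S.lam k * (⟨-s, θ⟩ : ℂ))) := by
    apply Summable.of_norm
    simp only [S.norm_term, neg_neg]
    exact S.summ_x hs
  unfold Ser.F Ser.G Ser.P
  rw [← hsum.sum_add_tsum_nat_add K]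
  rfl

theorem norm_P_le (S : Ser) (K : ℕ) {s : ℝ} (hs : 0 < s) (θ : ℝ) :
    ‖S.P K s θ‖ ≤ ∑ k ∈ Finset.range K, ‖S.a k‖ := by
  unfold Ser.P
  refine (norm_sum_le _ _).trans (Finset.sum_le_sum fun k _ => ?_)
  rw [S.norm_term, neg_neg]
  unfold Ser.x
  have h1 : Real.exp (-(S.lam k * s)) ≤ 1 := by
    rw [Real.exp_le_one_iff]
    have := mul_pos (S.lam_pos k) hs
    linarith
  exact mul_le_of_le_one_right (norm_nonneg _) h1

theorem M_tail (S : Ser) (K : ℕ) {s : ℝ} (hs : 0 < s) :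
    S.M s - ∑ k ∈ Finset.range K, ‖S.a k‖ ≤ (tailSer S K).M s := by
  have h1 : (tailSer S K).M s = S.M s - S.m K s := by
    rw [S.tail_eq K hs]
    rfl
  rw [h1]
  have h2 : S.m K s ≤ ∑ k ∈ Finset.range K, ‖S.a k‖ := by
    unfold Ser.m
    refine Finset.sum_le_sum fun k _ => ?_
    unfold Ser.x
    have h1 : Real.exp (-(S.lam k * s)) ≤ 1 := by
      rw [Real.exp_le_one_iff]
      have := mul_pos (S.lam_pos k) hs
      linarith
    exact mul_le_of_le_one_right (norm_nonneg _) h1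
  linarith

/-- `|F| → ∞` on a set of dimension at least one half in every interval -/
theorem dim_ser (S : Ser) (hS : Tendsto S.M (𝓝[>] 0) atTop) (α β : ℝ) (hαβ : α < β) :
    (1 / 2 : ℝ≥0∞) ≤ dimH {θ : ℝ | θ ∈ Ioo α β ∧
        Tendsto (fun s => ‖S.F s θ‖) (𝓝[>] 0) atTop} := by
  obtain ⟨CV, hCV, H⟩ := window S.q S.one_lt_q
  have hl : 0 < (β - α) / 8 := by linarith
  obtain ⟨K, -, hK⟩ := S.exists_idx (CV / ((β - α) / 8))
  have hKl : CV ≤ (tailSer S K).lam 0 * ((β - α) / 8) := by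
    have h1 := hK K le_rfl
    rw [div_lt_iff₀ hl] at h1
    show CV ≤ S.lam (0 + K) * ((β - α) / 8)
    rw [zero_add]
    exact h1.le
  have hpos : ∀ᶠ s : ℝ in 𝓝[>] (0 : ℝ), 0 < s := self_mem_nhdsWithin
  have hM : Tendsto (tailSer S K).M (𝓝[>] 0) atTop := by
    refine tendsto_atTop_mono' _ ?_ (tendsto_atTop_add_const_right _
      (-(∑ k ∈ Finset.range K, ‖S.a k‖)) hS)
    filter_upwards [hpos] with s hs
    have := M_tail S K hs
    linarith
  have h1 := H (tailSer S K) rfl hM ((α + β) / 2) ((β - α) / 8) hl hKl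
  refine h1.trans (dimH_mono ?_)
  rintro θ ⟨h2, h3⟩
  have h4 := abs_le.1 h2
  refine ⟨⟨by linarith [h4.1], by linarith [h4.2]⟩, ?_⟩
  refine tendsto_atTop_mono' _ ?_ (tendsto_atTop_add_const_right _
    (-(∑ k ∈ Finset.range K, ‖S.a k‖)) h3)
  filter_upwards [hpos] with s hs
  have h5 := norm_P_le S K hs θ
  have h6 := norm_sub_norm_le ((tailSer S K).F s θ) (-(S.P K s θ))
  rw [norm_neg, sub_neg_eq_add, add_comm ((tailSer S K).F s θ), ← F_tail S K hs θ] at h6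
  linarith

end Pool.Agent.Y705.HD
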